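import Mathlib
import Pool.Agent.Helper71.PhaseE

open Matrix Complex
open scoped ComplexOrder InnerProductSpace

namespace Pool.Agent.Results.MP_0eb722_an.PhaseMuExact

open Pool.Agent.Helper71.PhaseA Pool.Agent.Helper71.PhaseB Pool.Agent.Helper71.PhaseC
open Pool.Agent.Helper71.PhaseD Pool.Agent.Helper71.PhaseE

/-- The Euclidean norm of a vector of `ℂⁿ`. -/
noncomputable def vnorm {n : ℕ} (x : Fin n → ℂ) : ℝ := Real.sqrt (∑ i, ‖x i‖ ^ 2)

/-- The largest singular value of `G`, that is, the largest value of `|Gx|` over unit vectors `x`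
(the lemma `sigmaMax_eq` below identifies it with the first of Mathlib's singular values). -/
noncomputable def sigmaMax {n : ℕ} (G : Matrix (Fin n) (Fin n) ℂ) : ℝ :=
  sSup {t : ℝ | ∃ x : Fin n → ℂ, vnorm x = 1 ∧ t = vnorm (G *ᵥ x)}

/-- The set of all `b ≥ 0` with `G + G* - (β/j)(G - G*) ⪰ 0` for `β = b` and `β = -b`. -/
def phaseSet {n : ℕ} (G : Matrix (Fin n) (Fin n) ℂ) : Set ℝ :=
  {b : ℝ | 0 ≤ b ∧ ∀ β : ℝ, (β = b ∨ β = -b) →
    (G + Gᴴ - ((β : ℂ) / I) • (G - Gᴴ)).PosSemidef}

open Classical in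
/-- The phase: `cot⁻¹` of the supremum of `phaseSet G`, which is `π/2 - arctan` of it when it is
finite, and `0` when it is `+∞`. -/
noncomputable def phase {n : ℕ} (G : Matrix (Fin n) (Fin n) ℂ) : ℝ :=
  if BddAbove (phaseSet G) then Real.pi / 2 - Real.arctan (sSup (phaseSet G)) else 0

/-- The set `𝚪_θ`: `G + G* ⪰ 0` and phase at most `θ`. -/
def Gam (n : ℕ) (θ : ℝ) : Set (Matrix (Fin n) (Fin n) ℂ) :=
  {G | (G + Gᴴ).PosSemidef ∧ phase G ≤ θ}

/-- The set `S_θ(M)` of all `G ∈ 𝚪_θ` with `I + G M` singular. -/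
def SingSet {n : ℕ} (θ : ℝ) (M : Matrix (Fin n) (Fin n) ℂ) : Set (Matrix (Fin n) (Fin n) ℂ) :=
  {G | G ∈ Gam n θ ∧ ¬ IsUnit (1 + G * M)}

open Classical in
/-- The phase-sensitive structured singular value `μ_θ(M)`. -/
noncomputable def mu {n : ℕ} (θ : ℝ) (M : Matrix (Fin n) (Fin n) ℂ) : ℝ :=
  if (SingSet θ M).Nonempty then 1 / sInf (sigmaMax '' SingSet θ M) else 0

/-- The Hermitian matrix `r (M*M - γ² I) - ((1+jβ) M + ((1+jβ) M)*)` of the LMI. -/
noncomputable def lmiMatrix {n : ℕ} (M : Matrix (Fin n) (Fin n) ℂ) (γ r β : ℝ) :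
    Matrix (Fin n) (Fin n) ℂ :=
  (r : ℂ) • (Mᴴ * M - ((γ : ℂ) ^ 2) • (1 : Matrix (Fin n) (Fin n) ℂ))
    - ((1 + I * (β : ℂ)) • M + ((1 + I * (β : ℂ)) • M)ᴴ)

/-- `γ > 0` is feasible when some `r > 0` and some `β` (with `-cot θ ≤ β ≤ cot θ` when `θ > 0`,
unconstrained when `θ = 0`) make the LMI matrix negative definite. -/
def LmiFeasible {n : ℕ} (θ : ℝ) (M : Matrix (Fin n) (Fin n) ℂ) (γ : ℝ) : Prop :=
  0 < γ ∧ ∃ r : ℝ, 0 < r ∧ ∃ β : ℝ, (0 < θ → -(Real.cot θ) ≤ β ∧ β ≤ Real.cot θ) ∧
    (-(lmiMatrix M γ r β)).PosDef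

/-- The LMI bound of `μ_θ(M)`: the infimum of all feasible `γ > 0`. -/
noncomputable def muHat {n : ℕ} (θ : ℝ) (M : Matrix (Fin n) (Fin n) ℂ) : ℝ :=
  sInf {γ : ℝ | LmiFeasible θ M γ}

/-- Some unit vector `x` has `|Mx| = g` and `-Re x*Mx ≥ g c`. -/
def VectorTest {n : ℕ} (M : Matrix (Fin n) (Fin n) ℂ) (g c : ℝ) : Prop :=
  ∃ x : Fin n → ℂ, vnorm x = 1 ∧ vnorm (M *ᵥ x) = g ∧ g * c ≤ -(star x ⬝ᵥ (M *ᵥ x)).re

/-- The matrix `g c I + (M + M*)/2 - l (M*M - g² I)`. -/
noncomputable def testMatrix {n : ℕ} (M : Matrix (Fin n) (Fin n) ℂ) (g c l : ℝ) :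
    Matrix (Fin n) (Fin n) ℂ :=
  ((g * c : ℝ) : ℂ) • (1 : Matrix (Fin n) (Fin n) ℂ) + (1 / 2 : ℂ) • (M + Mᴴ)
    - (l : ℂ) • (Mᴴ * M - ((g : ℂ) ^ 2) • (1 : Matrix (Fin n) (Fin n) ℂ))

section lemmas

variable {n : ℕ}

lemma vnorm_eq (x : EuclideanSpace ℂ (Fin n)) : vnorm (WithLp.ofLp x) = ‖x‖ := by
  rw [vnorm, EuclideanSpace.norm_eq]

lemma vnorm_mulVec (G : Matrix (Fin n) (Fin n) ℂ) (x : EuclideanSpace ℂ (Fin n)) :
    vnorm (G *ᵥ (WithLp.ofLp x)) = ‖toEuclideanLin G x‖ :=
  vnorm_eq (toEuclideanLin G x)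

/-- `sigmaMax` is the largest singular value in Mathlib's sense (Mathlib lists the singular values
in descending order starting with index `0`). -/
lemma sigmaMax_eq (G : Matrix (Fin n) (Fin n) ℂ) :
    sigmaMax G = (toEuclideanLin G).singularValues 0 := by
  rcases Nat.eq_zero_or_pos n with h | h
  · subst h
    have h1 : {t : ℝ | ∃ x : Fin 0 → ℂ, vnorm x = 1 ∧ t = vnorm (G *ᵥ x)} = ∅ := by
      ext t
      simp [vnorm]
    rw [sigmaMax, h1, Real.sSup_empty, LinearMap.singularValues_of_finrank_le]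
    simp
  · have hbdd : BddAbove {t : ℝ | ∃ x : Fin n → ℂ, vnorm x = 1 ∧ t = vnorm (G *ᵥ x)} := by
      refine ⟨(toEuclideanLin G).singularValues 0, ?_⟩
      rintro _ ⟨x, hx, rfl⟩
      have h1 := norm_le_singularValue G (WithLp.toLp 2 x)
      rw [← vnorm_mulVec, ← vnorm_eq] at h1
      simp only at h1
      rwa [hx, mul_one] at h1
    apply le_antisymm
    · apply Real.sSup_le _ ((toEuclideanLin G).singularValues_nonneg 0)
      rintro _ ⟨x, hx, rfl⟩
      have h1 := norm_le_singularValue G (WithLp.toLp 2 x)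
      rw [← vnorm_mulVec, ← vnorm_eq] at h1
      simp only at h1
      rwa [hx, mul_one] at h1
    · apply singularValue_le
      · apply Real.sSup_nonneg
        rintro _ ⟨x, hx, rfl⟩
        exact Real.sqrt_nonneg _
      · intro x
        rcases eq_or_ne x 0 with rfl | hx0
        · simp
        · have hxn : 0 < ‖x‖ := norm_pos_iff.2 hx0
          set y : EuclideanSpace ℂ (Fin n) := ((‖x‖⁻¹ : ℝ) : ℂ) • x with hy
          have hyn : ‖y‖ = 1 := by
            rw [hy, norm_smul, Complex.norm_real, Real.norm_of_nonneg (by positivity)]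
            field_simp
          have hxy : x = ((‖x‖ : ℝ) : ℂ) • y := by
            rw [hy, smul_smul, ← Complex.ofReal_mul, mul_inv_cancel₀ hxn.ne', Complex.ofReal_one,
              one_smul]
          have h2 : ‖toEuclideanLin G y‖ ≤ sigmaMax G :=
            le_csSup hbdd ⟨WithLp.ofLp y, by rw [vnorm_eq, hyn], (vnorm_mulVec G y).symm⟩
          have h3 : ‖toEuclideanLin G x‖ = ‖x‖ * ‖toEuclideanLin G y‖ := by
            conv_lhs => rw [hxy]
            rw [map_smul, norm_smul, Complex.norm_real, Real.norm_of_nonneg hxn.le]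
          rw [h3, mul_comm]
          exact mul_le_mul_of_nonneg_right h2 hxn.le

lemma norm_le_sigmaMax (G : Matrix (Fin n) (Fin n) ℂ) (x : EuclideanSpace ℂ (Fin n)) :
    ‖toEuclideanLin G x‖ ≤ sigmaMax G * ‖x‖ := by
  rw [sigmaMax_eq]; exact norm_le_singularValue G x

lemma sigmaMax_le {G : Matrix (Fin n) (Fin n) ℂ} {C : ℝ} (hC : 0 ≤ C)
    (h : ∀ x : EuclideanSpace ℂ (Fin n), ‖toEuclideanLin G x‖ ≤ C * ‖x‖) : sigmaMax G ≤ C := by
  rw [sigmaMax_eq]; exact singularValue_le hC h

lemma vectorTest_iff (M : Matrix (Fin n) (Fin n) ℂ) (g c : ℝ) :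
    VectorTest M g c ↔ ∃ x : EuclideanSpace ℂ (Fin n), ‖x‖ = 1 ∧ ‖toEuclideanLin M x‖ = g ∧
    g * c ≤ -(inner ℂ x (toEuclideanLin M x)).re := by
  have key : ∀ x : EuclideanSpace ℂ (Fin n),
      (inner ℂ x (toEuclideanLin M x) : ℂ) = star (WithLp.ofLp x) ⬝ᵥ M *ᵥ (WithLp.ofLp x) := by
    intro x
    rw [EuclideanSpace.inner_eq_star_dotProduct, dotProduct_comm]
    rfl
  have key2 : ∀ x : EuclideanSpace ℂ (Fin n),
      vnorm (M *ᵥ (WithLp.ofLp x)) = ‖toEuclideanLin M x‖ := fun x =>
    vnorm_eq (toEuclideanLin M x)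
  constructor
  · rintro ⟨x, h1, h2, h3⟩
    refine ⟨WithLp.toLp 2 x, ?_, ?_, ?_⟩
    · rw [← vnorm_eq]; exact h1
    · rw [← key2]; exact h2
    · rw [key]; exact h3
  · rintro ⟨x, h1, h2, h3⟩
    refine ⟨WithLp.ofLp x, ?_, ?_, ?_⟩
    · rw [vnorm_eq]; exact h1
    · rw [key2]; exact h2
    · rw [← key]; exact h3

lemma mem_phaseSet {G : Matrix (Fin n) (Fin n) ℂ} {b : ℝ} :
    b ∈ phaseSet G ↔ 0 ≤ b ∧ ∀ x : EuclideanSpace ℂ (Fin n),
      b * |(inner ℂ x (toEuclideanLin G x)).im| ≤ (inner ℂ x (toEuclideanLin G x)).re := by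
  have hherm : ∀ β : ℝ, (G + Gᴴ - ((β : ℂ) / I) • (G - Gᴴ)).IsHermitian := by
    intro β
    rw [Matrix.IsHermitian, Matrix.conjTranspose_sub, Matrix.conjTranspose_add,
      Matrix.conjTranspose_smul, Matrix.conjTranspose_sub, Matrix.conjTranspose_conjTranspose]
    have : star ((β : ℂ) / I) = -((β : ℂ) / I) := by
      rw [Complex.star_def, map_div₀, Complex.conj_ofReal, Complex.conj_I, div_neg]
    rw [this, neg_smul, smul_sub, smul_sub]
    abel
  have hval : ∀ (β : ℝ) (x : EuclideanSpace ℂ (Fin n)),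
      (inner ℂ x (toEuclideanLin (G + Gᴴ - ((β : ℂ) / I) • (G - Gᴴ)) x)).re
        = 2 * ((inner ℂ x (toEuclideanLin G x)).re - β * (inner ℂ x (toEuclideanLin G x)).im) := by
    intro β x
    rw [map_sub, map_add, map_smul, map_sub]
    simp only [LinearMap.sub_apply, LinearMap.add_apply, LinearMap.smul_apply]
    rw [inner_sub_right, inner_add_right, inner_smul_right, inner_sub_right,
      toLin_conjTranspose_inner]
    generalize (inner ℂ x (toEuclideanLin G x) : ℂ) = w
    have : (β : ℂ) / I = -(β : ℂ) * I := by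
      rw [Complex.div_I]; ring
    rw [this]
    simp
    ring
  constructor
  · rintro ⟨hb, h⟩
    refine ⟨hb, fun x => ?_⟩
    have h1 := ((posSemidef_iff_inner _).1 (h b (Or.inl rfl))).2 x
    have h2 := ((posSemidef_iff_inner _).1 (h (-b) (Or.inr rfl))).2 x
    rw [hval] at h1 h2
    rcases abs_cases (inner ℂ x (toEuclideanLin G x)).im with ⟨h, _⟩ | ⟨h, _⟩ <;> rw [h] <;> linarith
  · rintro ⟨hb, h⟩
    refine ⟨hb, fun β hβ => ?_⟩
    rw [posSemidef_iff_inner]
    refine ⟨hherm β, fun x => ?_⟩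
    rw [hval]
    have h1 := h x
    have h2 := mul_le_mul_of_nonneg_left (le_abs_self (inner ℂ x (toEuclideanLin G x)).im) hb
    have h3 := mul_le_mul_of_nonneg_left (neg_abs_le (inner ℂ x (toEuclideanLin G x)).im) hb
    rcases hβ with rfl | rfl <;> linarith

/-- Membership in `𝚪_θ` is the numerical range condition. -/
lemma mem_Gam {θ : ℝ} (h0 : 0 ≤ θ) (h1 : θ ≤ Real.pi / 2) {G : Matrix (Fin n) (Fin n) ℂ} :
    G ∈ Gam n θ ↔ ∀ x : EuclideanSpace ℂ (Fin n), Sec θ (inner ℂ x (toEuclideanLin G x)) := by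
  constructor
  · rintro ⟨hpsd, hph⟩
    have hre : ∀ x : EuclideanSpace ℂ (Fin n), 0 ≤ (inner ℂ x (toEuclideanLin G x)).re := by
      intro x
      have := ((posSemidef_iff_inner _).1 hpsd).2 x
      rw [map_add, LinearMap.add_apply, inner_add_right, toLin_conjTranspose_inner,
        Complex.add_re, Complex.conj_re] at this
      linarith
    -- for each `b < cot θ` in the relevant sense
    rcases h0.eq_or_lt with h | h
    · subst h
      have hnb : ¬ BddAbove (phaseSet G) := by
        intro hb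
        rw [phase, if_pos hb] at hph
        have := Real.arctan_lt_pi_div_two (sSup (phaseSet G))
        linarith
      intro x
      have him : (inner ℂ x (toEuclideanLin G x)).im = 0 := by
        by_contra hne
        have hpos : 0 < |(inner ℂ x (toEuclideanLin G x)).im| := abs_pos.2 hne
        rw [not_bddAbove_iff] at hnb
        obtain ⟨b, hb, hlt⟩ := hnb ((inner ℂ x (toEuclideanLin G x)).re /
          |(inner ℂ x (toEuclideanLin G x)).im|)
        have := (mem_phaseSet.1 hb).2 x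
        rw [div_lt_iff₀ hpos] at hlt
        linarith
      refine ⟨hre x, ?_⟩
      rw [him]; simp
    · intro x
      apply sec_of_cot_mul_le h h1
      have hs := sin_pos' h h1
      -- any real `c < cot θ` works
      have hc : ∀ c : ℝ, c < Real.cot θ →
          c * |(inner ℂ x (toEuclideanLin G x)).im| ≤ (inner ℂ x (toEuclideanLin G x)).re := by
        intro c hc
        obtain ⟨b, hb, hlt⟩ : ∃ b ∈ phaseSet G, c ≤ b := by
          by_cases hbd : BddAbove (phaseSet G)
          · rw [phase, if_pos hbd] at hph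
            have h2 : Real.pi / 2 - θ ≤ Real.arctan (sSup (phaseSet G)) := by linarith
            have h3 : Real.cot θ ≤ sSup (phaseSet G) := by
              have h4 : Real.arctan (Real.cot θ) = Real.pi / 2 - θ := by
                have : Real.cot θ = Real.tan (Real.pi / 2 - θ) := by
                  rw [Real.tan_pi_div_two_sub, Real.tan_eq_sin_div_cos, Real.cot_eq_cos_div_sin,
                    inv_div]
                rw [this, Real.arctan_tan] <;> linarith [Real.pi_pos]
              rw [← h4] at h2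
              exact Real.arctan_le_arctan_iff.1 h2
            have hne : (phaseSet G).Nonempty := by
              refine ⟨0, mem_phaseSet.2 ⟨le_rfl, fun x => ?_⟩⟩
              rw [zero_mul]; exact hre x
            obtain ⟨b, hb, hlt⟩ := exists_lt_of_lt_csSup hne (lt_of_lt_of_le hc h3)
            exact ⟨b, hb, hlt.le⟩
          · rw [not_bddAbove_iff] at hbd
            obtain ⟨b, hb, hlt⟩ := hbd c
            exact ⟨b, hb, hlt.le⟩
        exact (mul_le_mul_of_nonneg_right hlt (abs_nonneg _)).trans ((mem_phaseSet.1 hb).2 x)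
      -- limit
      have hlim : Filter.Tendsto (fun c : ℝ => c * |(inner ℂ x (toEuclideanLin G x)).im|)
          (nhdsWithin (Real.cot θ) (Set.Iio (Real.cot θ)))
          (nhds (Real.cot θ * |(inner ℂ x (toEuclideanLin G x)).im|)) :=
        ((continuous_id.mul continuous_const).tendsto _).mono_left nhdsWithin_le_nhds
      apply le_of_tendsto hlim
      filter_upwards [self_mem_nhdsWithin] with c hc'
      exact hc c hc'
  · intro hS
    refine ⟨?_, ?_⟩
    · rw [posSemidef_iff_inner]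
      refine ⟨by rw [Matrix.IsHermitian, Matrix.conjTranspose_add,
        Matrix.conjTranspose_conjTranspose, add_comm], fun x => ?_⟩
      rw [map_add, LinearMap.add_apply, inner_add_right, toLin_conjTranspose_inner,
        Complex.add_re, Complex.conj_re]
      linarith [(hS x).1]
    · by_cases hbd : BddAbove (phaseSet G)
      · rw [phase, if_pos hbd]
        rcases h0.eq_or_lt with h | h
        · exfalso
          subst h
          obtain ⟨B, hB⟩ := hbd
          have hmem : (max B 0 + 1) ∈ phaseSet G := by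
            refine mem_phaseSet.2 ⟨by positivity, fun x => ?_⟩
            rw [Sec.im_zero (hS x)]
            simpa using (hS x).1
          have := hB hmem
          linarith [le_max_left B 0]
        · have hmem : Real.cot θ ∈ phaseSet G := by
            refine mem_phaseSet.2 ⟨?_, fun x => Sec.cot_mul_le (hS x) h h1⟩
            rw [Real.cot_eq_cos_div_sin]
            exact div_nonneg (cos_nonneg' h0 h1) (sin_nonneg' h0 h1)
          have h3 : Real.cot θ ≤ sSup (phaseSet G) := le_csSup hbd hmem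
          have h4 : Real.arctan (Real.cot θ) = Real.pi / 2 - θ := by
            have : Real.cot θ = Real.tan (Real.pi / 2 - θ) := by
              rw [Real.tan_pi_div_two_sub, Real.tan_eq_sin_div_cos, Real.cot_eq_cos_div_sin,
                inv_div]
            rw [this, Real.arctan_tan] <;> linarith [Real.pi_pos]
          have h5 := Real.arctan_le_arctan_iff.2 h3
          linarith
      · rw [phase, if_neg hbd]
        exact h0

lemma not_isUnit_iff {G M : Matrix (Fin n) (Fin n) ℂ} :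
    ¬ IsUnit (1 + G * M) ↔ ∃ x : EuclideanSpace ℂ (Fin n), ‖x‖ = 1 ∧
      toEuclideanLin G (toEuclideanLin M x) = -x := by
  rw [Matrix.isUnit_iff_isUnit_det, isUnit_iff_ne_zero, not_not, ← Matrix.exists_mulVec_eq_zero_iff]
  constructor
  · rintro ⟨v, hv, hv0⟩
    set y : EuclideanSpace ℂ (Fin n) := WithLp.toLp 2 v with hy
    have hy0 : y ≠ 0 := by
      intro h0
      apply hv
      exact (WithLp.toLp_eq_zero 2).1 h0
    have hyn : 0 < ‖y‖ := norm_pos_iff.2 hy0
    have e : toEuclideanLin (1 + G * M) y = 0 := by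
      have : toEuclideanLin (1 + G * M) y = WithLp.toLp 2 ((1 + G * M) *ᵥ v) := rfl
      rw [this, hv0]; rfl
    rw [map_add, LinearMap.add_apply, toLin_one_apply, toLin_mul_apply] at e
    refine ⟨((‖y‖⁻¹ : ℝ) : ℂ) • y, ?_, ?_⟩
    · rw [norm_smul, Complex.norm_real, Real.norm_of_nonneg (by positivity)]
      field_simp
    · rw [map_smul, map_smul, ← smul_neg]
      congr 1
      exact (neg_eq_of_add_eq_zero_right e).symm
  · rintro ⟨x, hx, hx0⟩
    refine ⟨WithLp.ofLp x, ?_, ?_⟩
    · intro h0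
      have : x = 0 := (WithLp.ofLp_eq_zero 2).1 h0
      rw [this] at hx
      simp at hx
    · have e : toEuclideanLin (1 + G * M) x = 0 := by
        rw [map_add, LinearMap.add_apply, toLin_one_apply, toLin_mul_apply, hx0]
        abel
      have e2 : WithLp.ofLp (toEuclideanLin (1 + G * M) x) = (1 + G * M) *ᵥ (WithLp.ofLp x) := rfl
      rw [← e2, e]
      rfl

lemma muHat_eq (θ : ℝ) (M : Matrix (Fin n) (Fin n) ℂ) :
    muHat θ M = muHatOp θ (toEuclideanLin M) := by
  rw [muHat, muHatOp]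
  congr 1
  ext γ
  simp only [Set.mem_ofPred_eq, Feas, LmiFeasible, lmiMatrix]
  apply and_congr_right
  intro _
  apply exists_congr
  intro r
  apply and_congr_right
  intro _
  apply exists_congr
  intro β
  apply and_congr_right
  intro _
  rw [posDef_iff_inner]
  have hherm : (-((r : ℂ) • (Mᴴ * M - ((γ : ℂ) ^ 2) • (1 : Matrix (Fin n) (Fin n) ℂ))
      - ((1 + I * (β : ℂ)) • M + ((1 + I * (β : ℂ)) • M)ᴴ))).IsHermitian := by
    have h1 : star (r : ℂ) = r := Complex.conj_ofReal r
    have h2 : star ((γ : ℂ) ^ 2) = (γ : ℂ) ^ 2 := by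
      rw [star_pow, Complex.star_def, Complex.conj_ofReal]
    rw [Matrix.IsHermitian]
    simp only [Matrix.conjTranspose_neg, Matrix.conjTranspose_sub, Matrix.conjTranspose_add,
      Matrix.conjTranspose_smul, Matrix.conjTranspose_mul, Matrix.conjTranspose_one,
      Matrix.conjTranspose_conjTranspose, h1, h2, star_star]
    abel
  have hval : ∀ x : EuclideanSpace ℂ (Fin n),
      (inner ℂ x (toEuclideanLin (-((r : ℂ) • (Mᴴ * M - ((γ : ℂ) ^ 2) • (1 : Matrix (Fin n) (Fin n) ℂ))
      - ((1 + I * (β : ℂ)) • M + ((1 + I * (β : ℂ)) • M)ᴴ))) x)).re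
      = -(r * (‖toEuclideanLin M x‖ ^ 2 - γ ^ 2 * ‖x‖ ^ 2)
      - 2 * ((inner ℂ x (toEuclideanLin M x)).re - β * (inner ℂ x (toEuclideanLin M x)).im)) := by
    intro x
    rw [map_neg, map_sub, map_smul, map_sub, map_smul, map_add, LinearMap.neg_apply,
      LinearMap.sub_apply, LinearMap.smul_apply, LinearMap.sub_apply, LinearMap.smul_apply,
      LinearMap.add_apply, inner_neg_right, inner_sub_right, inner_smul_right, inner_sub_right,
      inner_smul_right, inner_add_right, toLin_conjTranspose_inner, inner_conjTranspose_mul_self,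
      toLin_one_apply, inner_self_real, map_smul, LinearMap.smul_apply, inner_smul_right]
    generalize (inner ℂ x (toEuclideanLin M x) : ℂ) = w
    have : ((r : ℂ) * (((‖toEuclideanLin M x‖ ^ 2 : ℝ) : ℂ) - (γ : ℂ) ^ 2 * ((‖x‖ ^ 2 : ℝ) : ℂ)))
        = ((r * (‖toEuclideanLin M x‖ ^ 2 - γ ^ 2 * ‖x‖ ^ 2) : ℝ) : ℂ) := by
      push_cast; ring
    rw [this]
    simp only [Complex.neg_re, Complex.sub_re, Complex.add_re, Complex.ofReal_re, Complex.conj_re,
      Complex.mul_re, Complex.one_re, Complex.add_im, Complex.mul_im, Complex.I_re, Complex.I_im,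
      Complex.ofReal_im, Complex.one_im]
    ring
  constructor
  · rintro ⟨_, h⟩ x hx
    have := h x hx
    rw [hval] at this
    linarith
  · intro h
    refine ⟨hherm, fun x hx => ?_⟩
    rw [hval]
    have := h x hx
    linarith

lemma muHat_nonneg (θ : ℝ) (M : Matrix (Fin n) (Fin n) ℂ) : 0 ≤ muHat θ M := by
  rw [muHat_eq]; exact muHatOp_nonneg _ _

lemma sigmaMax_nonneg (G : Matrix (Fin n) (Fin n) ℂ) : 0 ≤ sigmaMax G := by
  rw [sigmaMax_eq]; exact (toEuclideanLin G).singularValues_nonneg 0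

/-- data carried by an element of `S_θ(M)` -/
lemma singSet_data {θ : ℝ} (h0 : 0 ≤ θ) (h1 : θ ≤ Real.pi / 2) {M G : Matrix (Fin n) (Fin n) ℂ}
    (hG : G ∈ SingSet θ M) : ∃ x : EuclideanSpace ℂ (Fin n), ‖x‖ = 1 ∧
      toEuclideanLin G (toEuclideanLin M x) = -x ∧
      Sec θ (-(inner ℂ x (toEuclideanLin M x))) ∧ 1 ≤ sigmaMax G * ‖toEuclideanLin M x‖ ∧
      ‖toEuclideanLin M x‖ ≤ muHat θ M := by
  obtain ⟨x, hx, hGx⟩ := not_isUnit_iff.1 hG.2
  have hsec := (mem_Gam h0 h1).1 hG.1 (toEuclideanLin M x)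
  rw [hGx, inner_neg_right] at hsec
  have hsec' : Sec θ (-(inner ℂ x (toEuclideanLin M x))) := by
    have := Sec.conj hsec
    rwa [map_neg, inner_conj_symm] at this
  refine ⟨x, hx, hGx, hsec', ?_, ?_⟩
  · have := norm_le_sigmaMax G (toEuclideanLin M x)
    rw [hGx, norm_neg, hx] at this
    exact this
  · rw [muHat_eq]
    exact norm_le_muHatOp h0 h1 hx hsec'

/-- elements of `S_θ(M)` are not smaller than `1/muHat` -/
lemma one_le_sigma_mul_muHat {θ : ℝ} (h0 : 0 ≤ θ) (h1 : θ ≤ Real.pi / 2)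
    {M G : Matrix (Fin n) (Fin n) ℂ} (hG : G ∈ SingSet θ M) : 1 ≤ sigmaMax G * muHat θ M := by
  obtain ⟨x, _, _, _, h2, h3⟩ := singSet_data h0 h1 hG
  exact h2.trans (mul_le_mul_of_nonneg_left h3 (sigmaMax_nonneg G))

lemma mu_le_muHat {θ : ℝ} (h0 : 0 ≤ θ) (h1 : θ ≤ Real.pi / 2) (M : Matrix (Fin n) (Fin n) ℂ) :
    mu θ M ≤ muHat θ M := by
  rw [mu]
  split_ifs with hne
  · obtain ⟨G, hG⟩ := hne
    have hpos : 0 < muHat θ M := by
      have := one_le_sigma_mul_muHat h0 h1 hG
      rcases (muHat_nonneg θ M).eq_or_lt with h | h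
      · rw [← h, mul_zero] at this; linarith
      · exact h
    have hinf : 1 / muHat θ M ≤ sInf (sigmaMax '' SingSet θ M) := by
      apply le_csInf (Set.Nonempty.image _ ⟨G, hG⟩)
      rintro _ ⟨G', hG', rfl⟩
      rw [div_le_iff₀ hpos]
      exact one_le_sigma_mul_muHat h0 h1 hG'
    have hinfpos : 0 < sInf (sigmaMax '' SingSet θ M) := lt_of_lt_of_le (by positivity) hinf
    rw [div_le_iff₀ hinfpos]
    rw [div_le_iff₀ hpos] at hinf
    linarith
  · exact muHat_nonneg θ M

open scoped Matrix.Norms.L2Operator in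
lemma sigmaMax_eq_norm (G : Matrix (Fin n) (Fin n) ℂ) : sigmaMax G = ‖G‖ := by
  apply le_antisymm
  · apply sigmaMax_le (norm_nonneg _)
    intro x
    exact (toEuclideanCLM (n := Fin n) (𝕜 := ℂ) G).le_opNorm x
  · exact (toEuclideanCLM (n := Fin n) (𝕜 := ℂ) G).opNorm_le_bound (sigmaMax_nonneg G)
      (fun x => norm_le_sigmaMax G x)

open scoped Matrix.Norms.L2Operator in
lemma exists_min {θ : ℝ} (h0 : 0 ≤ θ) (h1 : θ ≤ Real.pi / 2) {M : Matrix (Fin n) (Fin n) ℂ}
    (hne : (SingSet θ M).Nonempty) :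
    ∃ G ∈ SingSet θ M, sigmaMax G = sInf (sigmaMax '' SingSet θ M) := by
  have hproper : ProperSpace (Matrix (Fin n) (Fin n) ℂ) := FiniteDimensional.proper ℂ _
  have hcl : IsClosed (SingSet θ M) := by
    have hA : IsClosed {G : Matrix (Fin n) (Fin n) ℂ | G ∈ Gam n θ} := by
      have : {G : Matrix (Fin n) (Fin n) ℂ | G ∈ Gam n θ} = ⋂ x : EuclideanSpace ℂ (Fin n),
          {G : Matrix (Fin n) (Fin n) ℂ | Sec θ (inner ℂ x (toEuclideanLin G x))} := by
        ext G
        simp only [Set.mem_ofPred_eq, Set.mem_iInter]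
        exact mem_Gam h0 h1
      rw [this]
      apply isClosed_iInter
      intro x
      apply (isClosed_sec θ).preimage
      apply Continuous.inner continuous_const
      let L : Matrix (Fin n) (Fin n) ℂ →ₗ[ℂ] EuclideanSpace ℂ (Fin n) :=
        (LinearMap.applyₗ x).comp (toEuclideanLin (𝕜 := ℂ) (m := Fin n) (n := Fin n)).toLinearMap
      exact L.continuous_of_finiteDimensional
    have hB : IsClosed {G : Matrix (Fin n) (Fin n) ℂ | ¬ IsUnit (1 + G * M)} := by
      have hcomp : CompleteSpace (Matrix (Fin n) (Fin n) ℂ) := FiniteDimensional.complete ℂ _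
      have hopen : IsOpen {G : Matrix (Fin n) (Fin n) ℂ | IsUnit (1 + G * M)} :=
        (Units.isOpen (R := Matrix (Fin n) (Fin n) ℂ)).preimage (by fun_prop)
      exact hopen.isClosed_compl
    exact hA.inter hB
  obtain ⟨G, hG, hdist⟩ := hcl.exists_infDist_eq_dist hne 0
  refine ⟨G, hG, ?_⟩
  apply le_antisymm
  · apply le_csInf (hne.image _)
    rintro _ ⟨G', hG', rfl⟩
    have h3 := Metric.infDist_le_dist_of_mem (x := (0 : Matrix (Fin n) (Fin n) ℂ)) hG'
    rw [hdist, dist_zero_left, dist_zero_left] at h3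
    rw [sigmaMax_eq_norm, sigmaMax_eq_norm]
    exact h3
  · exact csInf_le ⟨0, by rintro _ ⟨G', _, rfl⟩; exact sigmaMax_nonneg G'⟩ ⟨G, hG, rfl⟩

/-- Exactness is equivalent to the existence of a suitable maximising vector. -/
lemma exact_iff {θ : ℝ} (h0 : 0 ≤ θ) (h1 : θ ≤ Real.pi / 2) (M : Matrix (Fin n) (Fin n) ℂ) :
    mu θ M = muHat θ M ↔ muHat θ M = 0 ∨ VectorTest M (muHat θ M) (Real.cos θ) := by
  rw [vectorTest_iff]
  constructor
  · intro heq
    rcases (muHat_nonneg θ M).eq_or_lt with h | hpos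
    · exact Or.inl h.symm
    · right
      have hne : (SingSet θ M).Nonempty := by
        by_contra hcon
        rw [mu, if_neg hcon] at heq
        linarith
      obtain ⟨G, hG, hmin⟩ := exists_min h0 h1 hne
      rw [mu, if_pos hne, ← hmin] at heq
      have hσpos : 0 < sigmaMax G := by
        rcases (sigmaMax_nonneg G).eq_or_lt with h | h
        · rw [← h, div_zero] at heq; linarith
        · exact h
      have hσ : sigmaMax G * muHat θ M = 1 := by
        rw [← heq]; field_simp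
      obtain ⟨x, hx, hGx, hsec, h2, h3⟩ := singSet_data h0 h1 hG
      have hMx : ‖toEuclideanLin M x‖ = muHat θ M := by
        apply le_antisymm h3
        rw [← hσ] at h2
        exact le_of_mul_le_mul_left h2 hσpos
      refine ⟨x, hx, hMx, ?_⟩
      -- scale
      set γ := muHat θ M with hγ
      set T : EuclideanSpace ℂ (Fin n) →ₗ[ℂ] EuclideanSpace ℂ (Fin n) :=
        (γ : ℂ) • toEuclideanLin G with hT
      set y : EuclideanSpace ℂ (Fin n) := ((γ⁻¹ : ℝ) : ℂ) • toEuclideanLin M x with hy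
      have hyn : ‖y‖ = 1 := by
        rw [hy, norm_smul, Complex.norm_real, Real.norm_of_nonneg (by positivity), hMx]
        field_simp
      have hTy : T y = -x := by
        rw [hT, hy, LinearMap.smul_apply, map_smul, smul_smul, ← Complex.ofReal_mul,
          mul_inv_cancel₀ hpos.ne', Complex.ofReal_one, one_smul, hGx]
      have hTS : ∀ z, Sec θ (inner ℂ z (T z)) := by
        intro z
        rw [hT, LinearMap.smul_apply, inner_smul_right]
        exact Sec.smul ((mem_Gam h0 h1).1 hG.1 z) hpos.le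
      have hTn : ∀ z, ‖T z‖ ≤ ‖z‖ := by
        intro z
        rw [hT, LinearMap.smul_apply, norm_smul, Complex.norm_real, Real.norm_of_nonneg hpos.le]
        have := norm_le_sigmaMax G z
        calc γ * ‖toEuclideanLin G z‖ ≤ γ * (sigmaMax G * ‖z‖) :=
              mul_le_mul_of_nonneg_left this hpos.le
          _ = (sigmaMax G * γ) * ‖z‖ := by ring
          _ = ‖z‖ := by rw [hσ, one_mul]
      have hang := angle h0 h1 hTS hTn hyn (by rw [hTy, norm_neg, hx])
      rw [hTy, hy, inner_neg_right, inner_smul_left, Complex.conj_ofReal, Complex.neg_re,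
        Complex.re_ofReal_mul, ← inner_conj_symm, Complex.conj_re] at hang
      have h5 : γ * Real.cos θ ≤ γ * -(γ⁻¹ * (inner ℂ x (toEuclideanLin M x)).re) :=
        mul_le_mul_of_nonneg_left hang hpos.le
      have h6 : γ * -(γ⁻¹ * (inner ℂ x (toEuclideanLin M x)).re)
          = -(inner ℂ x (toEuclideanLin M x)).re := by
        field_simp
      rw [h6] at h5
      exact h5
  · rintro (h | ⟨x, hx, hMx, hcos⟩)
    · apply le_antisymm (mu_le_muHat h0 h1 M)
      rw [h, mu]
      split_ifs with hne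
      · apply div_nonneg zero_le_one
        apply Real.sInf_nonneg
        rintro _ ⟨G, _, rfl⟩
        exact sigmaMax_nonneg G
      · exact le_rfl
    · rcases (muHat_nonneg θ M).eq_or_lt with h | hpos
      · apply le_antisymm (mu_le_muHat h0 h1 M)
        rw [← h, mu]
        split_ifs with hne
        · apply div_nonneg zero_le_one
          apply Real.sInf_nonneg
          rintro _ ⟨G, _, rfl⟩
          exact sigmaMax_nonneg G
        · exact le_rfl
      · set γ := muHat θ M with hγ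
        set y : EuclideanSpace ℂ (Fin n) := ((γ⁻¹ : ℝ) : ℂ) • toEuclideanLin M x with hy
        have hyn : ‖y‖ = 1 := by
          rw [hy, norm_smul, Complex.norm_real, Real.norm_of_nonneg (by positivity), hMx]
          field_simp
        have hcy : Real.cos θ ≤ (inner ℂ y (-x) : ℂ).re := by
          rw [hy, inner_neg_right, inner_smul_left, Complex.conj_ofReal, Complex.neg_re,
            Complex.re_ofReal_mul, ← inner_conj_symm, Complex.conj_re]
          have h6 : -(γ⁻¹ * (inner ℂ x (toEuclideanLin M x)).re)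
            = (-(inner ℂ x (toEuclideanLin M x)).re) / γ := by
            field_simp
          rw [h6, le_div_iff₀ hpos]
          linarith
        obtain ⟨T, hTy, hTn, hTS⟩ := exists_sectorial h0 h1 hyn (u := -x) (by rw [norm_neg, hx]) hcy
        set G : Matrix (Fin n) (Fin n) ℂ := toEuclideanLin.symm (((γ⁻¹ : ℝ) : ℂ) • T) with hG
        have hGT : toEuclideanLin G = ((γ⁻¹ : ℝ) : ℂ) • T := by
          rw [hG, LinearEquiv.apply_symm_apply]
        have hGmem : G ∈ SingSet θ M := by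
          refine ⟨(mem_Gam h0 h1).2 ?_, not_isUnit_iff.2 ⟨x, hx, ?_⟩⟩
          · intro z
            rw [hGT, LinearMap.smul_apply, inner_smul_right]
            exact Sec.smul (hTS z) (by positivity)
          · rw [hGT, LinearMap.smul_apply, ← map_smul, ← hy, hTy]
        have hσ : sigmaMax G ≤ γ⁻¹ := by
          apply sigmaMax_le (by positivity)
          intro z
          rw [hGT, LinearMap.smul_apply, norm_smul, Complex.norm_real,
            Real.norm_of_nonneg (by positivity)]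
          exact mul_le_mul_of_nonneg_left (hTn z) (by positivity)
        apply le_antisymm (mu_le_muHat h0 h1 M)
        have hne : (SingSet θ M).Nonempty := ⟨G, hGmem⟩
        rw [mu, if_pos hne]
        have hbdd : BddBelow (sigmaMax '' SingSet θ M) :=
          ⟨0, by rintro _ ⟨G', _, rfl⟩; exact sigmaMax_nonneg G'⟩
        have hinf : sInf (sigmaMax '' SingSet θ M) ≤ γ⁻¹ :=
          (csInf_le hbdd (Set.mem_image_of_mem _ hGmem)).trans hσ
        have hinfpos : 0 < sInf (sigmaMax '' SingSet θ M) := by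
          have : 1 / γ ≤ sInf (sigmaMax '' SingSet θ M) := by
            apply le_csInf (Set.Nonempty.image _ ⟨G, hGmem⟩)
            rintro _ ⟨G', hG', rfl⟩
            rw [div_le_iff₀ hpos]
            exact one_le_sigma_mul_muHat h0 h1 hG'
          exact lt_of_lt_of_le (by positivity) this
        rw [le_div_iff₀ hinfpos]
        calc γ * sInf (sigmaMax '' SingSet θ M) ≤ γ * γ⁻¹ :=
              mul_le_mul_of_nonneg_left hinf hpos.le
          _ = 1 := mul_inv_cancel₀ hpos.ne'

/-- The vector condition as a test with one real multiplier. -/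
lemma vector_iff_lmi (c γ : ℝ) (hγ : 0 < γ) (M : Matrix (Fin n) (Fin n) ℂ) :
    VectorTest M γ c ↔ ∀ l : ℝ, ¬ (testMatrix M γ c l).PosDef := by
  rw [vectorTest_iff]
  unfold testMatrix
  have hval : ∀ (l : ℝ) (x : EuclideanSpace ℂ (Fin n)),
      (inner ℂ x (toEuclideanLin (((γ * c : ℝ) : ℂ) • (1 : Matrix (Fin n) (Fin n) ℂ)
        + (1 / 2 : ℂ) • (M + Mᴴ)
        - (l : ℂ) • (Mᴴ * M - ((γ : ℂ) ^ 2) • (1 : Matrix (Fin n) (Fin n) ℂ))) x)).re
      = (γ * c * ‖x‖ ^ 2 + (inner ℂ x (toEuclideanLin M x)).re)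
        - l * (‖toEuclideanLin M x‖ ^ 2 - γ ^ 2 * ‖x‖ ^ 2) := by
    intro l x
    rw [map_sub, map_add, map_smul, map_smul, map_add, map_smul, map_sub, map_smul,
      LinearMap.sub_apply, LinearMap.add_apply, LinearMap.smul_apply, LinearMap.smul_apply,
      LinearMap.add_apply, LinearMap.smul_apply, LinearMap.sub_apply, LinearMap.smul_apply,
      inner_sub_right, inner_add_right, inner_smul_right, inner_smul_right, inner_add_right,
      inner_smul_right, inner_sub_right, inner_smul_right, toLin_conjTranspose_inner,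
      inner_conjTranspose_mul_self, toLin_one_apply, inner_self_real]
    generalize (inner ℂ x (toEuclideanLin M x) : ℂ) = w
    have e1 : ((l : ℂ) * (((‖toEuclideanLin M x‖ ^ 2 : ℝ) : ℂ) - (γ : ℂ) ^ 2 * ((‖x‖ ^ 2 : ℝ) : ℂ)))
        = ((l * (‖toEuclideanLin M x‖ ^ 2 - γ ^ 2 * ‖x‖ ^ 2) : ℝ) : ℂ) := by
      push_cast; ring
    have e2 : (1 / 2 : ℂ) * (w + (starRingEnd ℂ) w) = ((w.re : ℝ) : ℂ) := by
      rw [Complex.add_conj]; push_cast; ring
    rw [e1, e2, ← Complex.ofReal_mul]
    simp only [Complex.sub_re, Complex.add_re, Complex.ofReal_re]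
  have hherm : ∀ l : ℝ, (((γ * c : ℝ) : ℂ) • (1 : Matrix (Fin n) (Fin n) ℂ)
        + (1 / 2 : ℂ) • (M + Mᴴ)
        - (l : ℂ) • (Mᴴ * M - ((γ : ℂ) ^ 2) • (1 : Matrix (Fin n) (Fin n) ℂ))).IsHermitian := by
    intro l
    have h1 : star (l : ℂ) = l := Complex.conj_ofReal l
    have h2 : star ((γ : ℂ) ^ 2) = (γ : ℂ) ^ 2 := by
      rw [star_pow, Complex.star_def, Complex.conj_ofReal]
    have h3 : star ((γ * c : ℝ) : ℂ) = ((γ * c : ℝ) : ℂ) := Complex.conj_ofReal _
    have h4 : star (1 / 2 : ℂ) = 1 / 2 := by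
      have : (1 / 2 : ℂ) = ((1 / 2 : ℝ) : ℂ) := by push_cast; ring
      rw [this]
      exact Complex.conj_ofReal _
    rw [Matrix.IsHermitian]
    simp only [Matrix.conjTranspose_sub, Matrix.conjTranspose_add,
      Matrix.conjTranspose_smul, Matrix.conjTranspose_mul, Matrix.conjTranspose_one,
      Matrix.conjTranspose_conjTranspose, h1, h2, h3, h4]
    rw [add_comm Mᴴ M]
  constructor
  · rintro ⟨x, hx, hMx, hc⟩ l hpd
    have hx0 : x ≠ 0 := by
      rintro rfl
      simp at hx
    have := ((posDef_iff_inner _).1 hpd).2 x hx0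
    rw [hval, hMx, hx] at this
    nlinarith
  · intro h
    set T := toEuclideanLin M with hT
    have hTc : Continuous T := T.continuous_of_finiteDimensional
    have hf : IsForm (fun x : EuclideanSpace ℂ (Fin n) =>
        ‖T x‖ ^ 2 + (-γ ^ 2) * ‖(LinearMap.id : EuclideanSpace ℂ (Fin n) →ₗ[ℂ] _) x‖ ^ 2) :=
      (isForm_normSq T).add ((isForm_normSq _).const_mul (-γ ^ 2))
    have hg : IsForm (fun x : EuclideanSpace ℂ (Fin n) =>
        (γ * c) * ‖(LinearMap.id : EuclideanSpace ℂ (Fin n) →ₗ[ℂ] _) x‖ ^ 2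
          + (inner ℂ x (T x)).re) :=
      ((isForm_normSq _).const_mul (γ * c)).add (isForm_re T)
    have hfc : Continuous (fun x : EuclideanSpace ℂ (Fin n) =>
        ‖T x‖ ^ 2 + (-γ ^ 2) * ‖(LinearMap.id : EuclideanSpace ℂ (Fin n) →ₗ[ℂ] _) x‖ ^ 2) := by
      simp only [LinearMap.id_apply]
      exact (hTc.norm.pow 2).add (continuous_const.mul (continuous_norm.pow 2))
    have hgc : Continuous (fun x : EuclideanSpace ℂ (Fin n) =>
        (γ * c) * ‖(LinearMap.id : EuclideanSpace ℂ (Fin n) →ₗ[ℂ] _) x‖ ^ 2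
          + (inner ℂ x (T x)).re) := by
      simp only [LinearMap.id_apply]
      exact (continuous_const.mul (continuous_norm.pow 2)).add
        (Complex.continuous_re.comp (continuous_id.inner hTc))
    obtain ⟨x, hx, h1, h2⟩ := exists_unit_or_multiplier hf hg hfc hgc (by
      intro l hl
      apply h l
      rw [posDef_iff_inner]
      refine ⟨hherm l, fun x hx => ?_⟩
      rw [hval]
      have := hl x hx
      simp only [LinearMap.id_apply] at this
      linarith)
    simp only [LinearMap.id_apply, hx] at h1 h2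
    refine ⟨x, hx, ?_, by linarith⟩
    have h3 : ‖T x‖ ^ 2 = γ ^ 2 := by linarith
    exact (sq_eq_sq₀ (norm_nonneg _) hγ.le).1 h3

end lemmas

/-- Exactness of the LMI bound: for which `(M, θ)` does `μ_θ(M) = μ̂_θ(M)` hold. -/
theorem result :
    (∀ (n : ℕ) (M : Matrix (Fin n) (Fin n) ℂ) (θ : ℝ), 1 ≤ n → 0 ≤ θ → θ ≤ Real.pi / 2 →
      (mu θ M = muHat θ M ↔ (muHat θ M = 0 ∨ VectorTest M (muHat θ M) (Real.cos θ))) ∧
      (mu θ M = muHat θ M ↔ (muHat θ M = 0 ∨
        ∀ l : ℝ, ¬ (testMatrix M (muHat θ M) (Real.cos θ) l).PosDef))) ∧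
    (∀ (n : ℕ) (θ : ℝ), 1 ≤ n → 0 ≤ θ → θ ≤ Real.pi / 2 →
      ((n = 1 ∨ θ = Real.pi / 2) → ∀ M : Matrix (Fin n) (Fin n) ℂ, mu θ M = muHat θ M) ∧
      ((2 ≤ n ∧ θ < Real.pi / 2) → ∃ M : Matrix (Fin n) (Fin n) ℂ, mu θ M < muHat θ M)) := by
  refine ⟨fun n M θ hn h0 h1 => ⟨exact_iff h0 h1 M, ?_⟩, fun n θ hn h0 h1 => ⟨?_, ?_⟩⟩
  · rw [exact_iff h0 h1 M]
    rcases (muHat_nonneg θ M).eq_or_lt with h | hpos
    · simp [← h]
    · rw [vector_iff_lmi (Real.cos θ) (muHat θ M) hpos M]
  · intro hcase M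
    rw [exact_iff h0 h1 M, vectorTest_iff]
    rcases (muHat_nonneg θ M).eq_or_lt with h | hpos
    · exact Or.inl h.symm
    · right
      rw [muHat_eq] at hpos
      obtain ⟨x, hx, hTx, hS⟩ := muHatOp_attained h0 h1 hpos
      rw [← muHat_eq] at hTx
      refine ⟨x, hx, hTx, ?_⟩
      rcases hcase with h | h
      · subst h
        rw [sec_iff_cos h0 h1, norm_neg, Complex.neg_re] at hS
        have hnorm : ‖(inner ℂ x (toEuclideanLin M x) : ℂ)‖ = ‖toEuclideanLin M x‖ := by
          have e1 : ∀ v : EuclideanSpace ℂ (Fin 1), ‖v‖ = ‖v 0‖ := by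
            intro v
            rw [EuclideanSpace.norm_eq]
            simp
          rw [EuclideanSpace.inner_eq_star_dotProduct, e1 (toEuclideanLin M x)]
          simp only [dotProduct, Finset.univ_unique, Fin.default_eq_zero, Finset.sum_singleton,
            norm_mul, Pi.star_apply, norm_star]
          rw [← e1 x, hx, mul_one]
        rw [hnorm, hTx] at hS
        linarith
      · rw [h, Real.cos_pi_div_two, mul_zero]
        have := hS.1
        rwa [Complex.neg_re] at this
  · rintro ⟨hn2, hθ⟩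
    -- M = diag(-1, 4, 0, ..., 0)
    obtain ⟨m, rfl⟩ : ∃ m, n = m + 2 := ⟨n - 2, by omega⟩
    have hcospos : 0 < Real.cos θ := Real.cos_pos_of_mem_Ioo ⟨by linarith [Real.pi_pos], hθ⟩
    set d : Fin (m + 2) → ℂ := fun i => if i = 0 then -1 else if i = 1 then 4 else 0 with hd
    set M : Matrix (Fin (m + 2)) (Fin (m + 2)) ℂ := Matrix.diagonal d with hM
    have h10 : (1 : Fin (m + 2)) ≠ 0 := by
      simp
    have hMx : ∀ x : EuclideanSpace ℂ (Fin (m + 2)), ∀ i, (toEuclideanLin M x) i = d i * x i := by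
      intro x i
      show (M *ᵥ (WithLp.ofLp x)) i = _
      rw [hM, Matrix.mulVec_diagonal]
    have hsplit : ∀ f : Fin (m + 2) → ℝ, ∑ i, f i = f 0 + f 1 + ∑ i : Fin m, f i.succ.succ := by
      intro f
      rw [Fin.sum_univ_succ, Fin.sum_univ_succ]
      simp only [Fin.succ_zero_eq_one]
      ring
    have hd0 : d 0 = -1 := by simp [hd]
    have hd1 : d 1 = 4 := by simp [hd]
    have hds : ∀ i : Fin m, d i.succ.succ = 0 := by
      intro i
      have h2 : (i.succ.succ : Fin (m + 2)) ≠ 0 := Fin.succ_ne_zero _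
      have h3 : (i.succ.succ : Fin (m + 2)) ≠ 1 := by
        intro h
        have : (i.succ.succ : Fin (m + 2)) = (0 : Fin (m + 1)).succ := h
        exact Fin.succ_ne_zero i (Fin.succ_injective _ this)
      simp [hd, h2, h3]
    have hnsq : ∀ x : EuclideanSpace ℂ (Fin (m + 2)),
        ‖x‖ ^ 2 = ‖x 0‖ ^ 2 + ‖x 1‖ ^ 2 + ∑ i : Fin m, ‖x i.succ.succ‖ ^ 2 := by
      intro x
      rw [EuclideanSpace.norm_sq_eq, hsplit]
    have hTnsq : ∀ x : EuclideanSpace ℂ (Fin (m + 2)),
        ‖toEuclideanLin M x‖ ^ 2 = ‖x 0‖ ^ 2 + 16 * ‖x 1‖ ^ 2 := by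
      intro x
      rw [hnsq, hMx, hMx, hd0, hd1]
      have : ∀ i : Fin m, ‖(toEuclideanLin M x) i.succ.succ‖ ^ 2 = 0 := by
        intro i
        rw [hMx, hds]; simp
      simp only [this, Finset.sum_const_zero]
      rw [norm_mul, norm_mul]
      simp
      ring
    have hinner : ∀ x : EuclideanSpace ℂ (Fin (m + 2)),
        (inner ℂ x (toEuclideanLin M x) : ℂ) = ((-‖x 0‖ ^ 2 + 4 * ‖x 1‖ ^ 2 : ℝ) : ℂ) := by
      intro x
      rw [PiLp.inner_apply]
      have e : ∀ i, (inner ℂ (x i) ((toEuclideanLin M x) i) : ℂ) = d i * ((‖x i‖ ^ 2 : ℝ) : ℂ) := by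
        intro i
        rw [hMx, RCLike.inner_apply]
        have : x i * (starRingEnd ℂ) (x i) = ((‖x i‖ ^ 2 : ℝ) : ℂ) := by
          rw [Complex.mul_conj, Complex.normSq_eq_norm_sq]
        rw [← this]
        ring
      simp only [e]
      rw [Fin.sum_univ_succ, Fin.sum_univ_succ]
      simp only [Fin.succ_zero_eq_one, hd0, hd1, hds, zero_mul, Finset.sum_const_zero]
      push_cast
      ring
    refine ⟨M, lt_of_le_of_ne (mu_le_muHat h0 h1 M) ?_⟩
    intro heq
    -- lower bound muHat ≥ 2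
    have h2 : 2 ≤ muHat θ M := by
      rw [muHat_eq]
      set x : EuclideanSpace ℂ (Fin (m + 2)) := WithLp.toLp 2 (fun i =>
        if i = 0 then (2 / Real.sqrt 5 : ℝ) else if i = 1 then (1 / Real.sqrt 5 : ℝ) else 0) with hx
      have hx0 : x 0 = ((2 / Real.sqrt 5 : ℝ) : ℂ) := by simp [hx]
      have hx1 : x 1 = ((1 / Real.sqrt 5 : ℝ) : ℂ) := by simp [hx]
      have hxs : ∀ i : Fin m, x i.succ.succ = 0 := by
        intro i
        have h2 : (i.succ.succ : Fin (m + 2)) ≠ 0 := Fin.succ_ne_zero _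
        have h3 : (i.succ.succ : Fin (m + 2)) ≠ 1 := by
          intro h
          have : (i.succ.succ : Fin (m + 2)) = (0 : Fin (m + 1)).succ := h
          exact Fin.succ_ne_zero i (Fin.succ_injective _ this)
        simp [hx, h2, h3]
      have hs5 : Real.sqrt 5 ^ 2 = 5 := Real.sq_sqrt (by norm_num)
      have n0 : ‖x 0‖ ^ 2 = 4 / 5 := by
        rw [hx0, Complex.norm_real, Real.norm_eq_abs, sq_abs, div_pow, hs5]; norm_num
      have n1 : ‖x 1‖ ^ 2 = 1 / 5 := by
        rw [hx1, Complex.norm_real, Real.norm_eq_abs, sq_abs, div_pow, hs5]; norm_num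
      have hxn : ‖x‖ = 1 := by
        have : ‖x‖ ^ 2 = 1 := by
          rw [hnsq, n0, n1]
          simp only [hxs]
          simp
          norm_num
        have h' := norm_nonneg x
        nlinarith
      have hTxn : ‖toEuclideanLin M x‖ = 2 := by
        have : ‖toEuclideanLin M x‖ ^ 2 = 4 := by
          rw [hTnsq, n0, n1]; norm_num
        have h' := norm_nonneg (toEuclideanLin M x)
        nlinarith
      have hsec : Sec θ (-(inner ℂ x (toEuclideanLin M x))) := by
        rw [hinner, n0, n1]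
        norm_num [Sec]
      have := norm_le_muHatOp h0 h1 hxn hsec
      rw [hTxn] at this
      exact this
    rw [exact_iff h0 h1 M, vectorTest_iff] at heq
    rcases heq with h | ⟨x, hx, hTx, hc⟩
    · linarith
    · have h3 := hTnsq x
      have h4 := hnsq x
      rw [hTx] at h3
      rw [hx] at h4
      rw [hinner, Complex.ofReal_re] at hc
      have h5 : 0 < muHat θ M * Real.cos θ := by positivity
      have h6 : 0 ≤ ∑ i : Fin m, ‖x i.succ.succ‖ ^ 2 := by positivity
      nlinarith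

end Pool.Agent.Results.MP_0eb722_an.PhaseMuExact
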